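import Mathlib

/-!
# The Artin cone of level one for quaternary forms of degree 14 is not convex

`M(a, b, c) = a^4 b^2 + a^2 b^4 + c^6 - 3 a^2 b^2 c^2` is the Motzkin form. Put
`p1 = x3^8 M(x0, x1, x2) + x2^8 M(x0, x1, x3)` and `p2 = x0^8 M(x2, x3, x1) + x1^8 M(x2, x3, x0)`.
Then `(x0^2 + x1^2) p1` and `(x2^2 + x3^2) p2` are sums of squares, while a quadratic form `q` for
which `(p1 + p2) q` is a sum of squares has to vanish at all four coordinate points.
-/

set_option autoImplicit false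

namespace Pool.Agent.Results.MP_9eb66c_ag.NotConvex

open MvPolynomial

/-- The Artin cone of level `r`: the forms `p` of degree `2d` in `n` variables for which `p * q` is a
sum of squares for some nonzero form `q` of degree `2r` that is itself a sum of squares. -/
def artinCone (n d r : ℕ) : Set (MvPolynomial (Fin n) ℝ) :=
  {p | p.IsHomogeneous (2 * d) ∧
    ∃ q : MvPolynomial (Fin n) ℝ, q.IsHomogeneous (2 * r) ∧ q ≠ 0 ∧ IsSumSq q ∧ IsSumSq (p * q)}

/-! ### Rings in which a vanishing sum of squares has vanishing terms -/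

/-- A vanishing sum of squares has vanishing terms. -/
def RealLike (R : Type*) [CommRing R] : Prop :=
  ∀ l : List R, (l.map (fun a => a ^ 2)).sum = 0 → ∀ a ∈ l, a = 0

theorem exists_list {R : Type*} [CommRing R] {s : R} (h : IsSumSq s) :
    ∃ l : List R, s = (l.map (fun a => a ^ 2)).sum := by
  induction h with
  | zero => exact ⟨[], by simp⟩
  | sq_add a hs ih =>
    obtain ⟨l, hl⟩ := ih
    exact ⟨a :: l, by simp [hl, sq]⟩

theorem realLike_real : RealLike ℝ := by
  intro l
  induction l with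
  | nil => simp
  | cons a l ih =>
    intro h b hb
    have h0 : ∀ l : List ℝ, 0 ≤ (l.map (fun a => a ^ 2)).sum := by
      intro l
      apply List.sum_nonneg
      intro x hx
      simp only [List.mem_map] at hx
      obtain ⟨y, -, rfl⟩ := hx
      positivity
    simp only [List.map_cons, List.sum_cons] at h
    have h1 : a ^ 2 = 0 := by nlinarith [h0 l, sq_nonneg a]
    have h2 : (l.map (fun a => a ^ 2)).sum = 0 := by rw [h1] at h; simpa using h
    rcases List.mem_cons.1 hb with rfl | hb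
    · simpa using h1
    · exact ih h2 b hb

theorem coeff_sq_sum {R : Type*} [CommRing R] (l : List (Polynomial R)) (m : ℕ)
    (hl : ∀ f ∈ l, f.natDegree ≤ m) :
    ((l.map (fun a => a ^ 2)).sum).coeff (2 * m) =
      ((l.map (fun f => f.coeff m)).map (fun a => a ^ 2)).sum := by
  induction l with
  | nil => simp
  | cons f l ih =>
    have h1 : f.natDegree ≤ m := hl f (by simp)
    have h2 : (f ^ 2).coeff (2 * m) = (f.coeff m) ^ 2 :=
      Polynomial.coeff_pow_of_natDegree_le h1
    have h3 := ih (fun g hg => hl g (by simp [hg]))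
    simp only [List.map_cons, List.sum_cons, Polynomial.coeff_add, h2]
    rw [h3]

theorem exists_max {R : Type*} [CommRing R] (l : List (Polynomial R)) (hl : l ≠ []) :
    ∃ f ∈ l, ∀ g ∈ l, g.natDegree ≤ f.natDegree := by
  induction l with
  | nil => exact absurd rfl hl
  | cons f l ih =>
    by_cases h : l = []
    · subst h
      exact ⟨f, by simp, by simp⟩
    · obtain ⟨g, hg, hmax⟩ := ih h
      by_cases hfg : g.natDegree ≤ f.natDegree
      · refine ⟨f, by simp, ?_⟩
        intro k hk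
        rcases List.mem_cons.1 hk with rfl | hk
        · exact le_rfl
        · exact (hmax k hk).trans hfg
      · refine ⟨g, by simp [hg], ?_⟩
        intro k hk
        rcases List.mem_cons.1 hk with rfl | hk
        · omega
        · exact hmax k hk

theorem natDegree_le_of_realLike {R : Type*} [CommRing R] (hR : RealLike R)
    (l : List (Polynomial R)) (m : ℕ)
    (hS : ∀ k, 2 * m < k → ((l.map (fun a => a ^ 2)).sum).coeff k = 0) :
    ∀ f ∈ l, f.natDegree ≤ m := by
  by_cases hl : l = []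
  · subst hl; simp
  obtain ⟨f, hf, hmax⟩ := exists_max l hl
  by_contra hcon
  push Not at hcon
  obtain ⟨g, hg, hgm⟩ := hcon
  have hfm : m < f.natDegree := hgm.trans_le (hmax g hg)
  have h1 := coeff_sq_sum l f.natDegree hmax
  rw [hS _ (by omega)] at h1
  have h2 := hR _ h1.symm (f.coeff f.natDegree) (List.mem_map.2 ⟨f, hf, rfl⟩)
  have h3 : f.leadingCoeff = 0 := h2
  rw [Polynomial.leadingCoeff_eq_zero] at h3
  rw [h3] at hfm
  simp at hfm

theorem RealLike.polynomial {R : Type*} [CommRing R] (hR : RealLike R) :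
    RealLike (Polynomial R) := by
  intro l hl f hf
  have h1 := natDegree_le_of_realLike hR l 0 (by intro k _; rw [hl]; simp)
  have h2 := coeff_sq_sum l 0 h1
  rw [hl] at h2
  have h3 := hR _ (by rw [← h2]; simp) (f.coeff 0) (List.mem_map.2 ⟨f, hf, rfl⟩)
  rw [Polynomial.eq_C_of_natDegree_le_zero (h1 f hf), h3]
  simp

/-! ### The two forms -/

/-- The Motzkin form. -/
def mot {R : Type*} [CommRing R] (a b c : R) : R :=
  a ^ 4 * b ^ 2 + a ^ 2 * b ^ 4 + c ^ 6 - 3 * a ^ 2 * b ^ 2 * c ^ 2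

/-- The first form, evaluated at elements of a ring. -/
def P1 {R : Type*} [CommRing R] (a b c d : R) : R := d ^ 8 * mot a b c + c ^ 8 * mot a b d

/-- The second form, evaluated at elements of a ring. -/
def P2 {R : Type*} [CommRing R] (a b c d : R) : R := a ^ 8 * mot c d b + b ^ 8 * mot c d a

theorem mot_identity {R : Type*} [CommRing R] (a b c : R) :
    (a ^ 2 + b ^ 2) * mot a b c =
      (a * c * (c ^ 2 - b ^ 2)) ^ 2 + (b * c * (c ^ 2 - a ^ 2)) ^ 2 +
        (a * b * (a ^ 2 + b ^ 2 - 2 * c ^ 2)) ^ 2 := by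
  unfold mot; ring

theorem isSumSq_sq {R : Type*} [CommRing R] (a : R) : IsSumSq (a ^ 2) := by
  rw [sq]; exact IsSumSq.mul_self a

theorem isSumSq_P1 {R : Type*} [CommRing R] (a b c d : R) :
    IsSumSq (P1 a b c d * (a ^ 2 + b ^ 2)) := by
  have h : P1 a b c d * (a ^ 2 + b ^ 2) =
      ((d ^ 4 * (a * c * (c ^ 2 - b ^ 2))) ^ 2 + (d ^ 4 * (b * c * (c ^ 2 - a ^ 2))) ^ 2 +
        (d ^ 4 * (a * b * (a ^ 2 + b ^ 2 - 2 * c ^ 2))) ^ 2) +
      ((c ^ 4 * (a * d * (d ^ 2 - b ^ 2))) ^ 2 + (c ^ 4 * (b * d * (d ^ 2 - a ^ 2))) ^ 2 +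
        (c ^ 4 * (a * b * (a ^ 2 + b ^ 2 - 2 * d ^ 2))) ^ 2) := by
    unfold P1 mot; ring
  rw [h]
  exact (((isSumSq_sq _).add (isSumSq_sq _)).add (isSumSq_sq _)).add
    (((isSumSq_sq _).add (isSumSq_sq _)).add (isSumSq_sq _))

theorem P2_eq {R : Type*} [CommRing R] (a b c d : R) : P2 a b c d = P1 c d a b := by
  unfold P1 P2; ring

theorem isSumSq_map {R S : Type*} [CommSemiring R] [CommSemiring S] (f : R →+* S) {s : R}
    (h : IsSumSq s) : IsSumSq (f s) := by
  induction h with
  | zero => rw [map_zero]; exact IsSumSq.zero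
  | sq_add a hs ih => rw [map_add, map_mul]; exact IsSumSq.sq_add _ ih

theorem coeffs {R : Type*} [CommRing R] (A B D : R) (k : ℕ) :
    (Polynomial.C A * Polynomial.X ^ 4 + Polynomial.C B * Polynomial.X ^ 2 +
      Polynomial.C D).coeff k = if k = 4 then A else if k = 2 then B else if k = 0 then D else 0 := by
  simp only [Polynomial.coeff_add, Polynomial.coeff_C_mul, Polynomial.coeff_X_pow,
      Polynomial.coeff_C]
  split_ifs <;> simp_all

/-- The two-variable step: `c * M(x, y, 1)` with `c > 0` is not a sum of squares. -/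
theorem not_motzkin (c : ℝ) (hc : 0 < c) (l : List (Polynomial (Polynomial ℝ)))
    (hl : (l.map (fun g => g ^ 2)).sum =
      Polynomial.C (Polynomial.C c * Polynomial.X ^ 2) * Polynomial.X ^ 4 +
      Polynomial.C (Polynomial.C c * (Polynomial.X ^ 4 - 3 * Polynomial.X ^ 2)) *
        Polynomial.X ^ 2 + Polynomial.C (Polynomial.C c)) : False := by
  have hR1 : RealLike (Polynomial ℝ) := realLike_real.polynomial
  -- degrees in `y`
  have hdeg : ∀ g ∈ l, g.natDegree ≤ 2 := by
    apply natDegree_le_of_realLike hR1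
    intro k hk
    rw [hl, coeffs]
    have e1 : k ≠ 4 := by omega
    have e2 : k ≠ 2 := by omega
    have e3 : k ≠ 0 := by omega
    simp [e1, e2, e3]
  -- top coefficients
  have htop := coeff_sq_sum l 2 hdeg
  rw [hl] at htop
  have htop' : ((l.map (fun f => f.coeff 2)).map (fun a => a ^ 2)).sum =
      Polynomial.C c * Polynomial.X ^ 2 := by
    rw [← htop, coeffs]
    simp
  have hg2 : ∀ g ∈ l, (g.coeff 2).natDegree ≤ 1 := by
    have := natDegree_le_of_realLike realLike_real (l.map (fun f => f.coeff 2)) 1 (by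
      intro k hk
      rw [htop']
      have e1 : k ≠ 2 := by omega
      simp [Polynomial.coeff_X_pow, e1])
    intro g hg
    exact this _ (List.mem_map.2 ⟨g, hg, rfl⟩)
  have hg20 : ∀ g ∈ l, (g.coeff 2).eval 0 = 0 := by
    have h1 : (((l.map (fun f => f.coeff 2)).map (fun a => a.eval (0 : ℝ))).map
        (fun a => a ^ 2)).sum = 0 := by
      have h2 := congrArg (Polynomial.evalRingHom (0 : ℝ)) htop'
      rw [map_list_sum] at h2
      simp only [List.map_map] at h2 ⊢
      have h3 : ((Polynomial.evalRingHom (0 : ℝ)) (Polynomial.C c * Polynomial.X ^ 2)) = 0 := by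
        simp
      rw [h3] at h2
      refine Eq.trans (congrArg List.sum ?_) h2
      apply List.map_congr_left
      intro g _
      simp only [Function.comp, map_pow, Polynomial.coe_evalRingHom]
    intro g hg
    apply realLike_real _ h1
    exact List.mem_map.2 ⟨_, List.mem_map.2 ⟨g, hg, rfl⟩, rfl⟩
  -- constant coefficients
  have hbot : ((l.map (fun f => f.coeff 0)).map (fun a => a ^ 2)).sum = Polynomial.C c := by
    have h1 := congrArg (Polynomial.constantCoeff) hl
    rw [Polynomial.constantCoeff_apply (_ + _), coeffs, map_list_sum] at h1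
    simp only [List.map_map] at h1 ⊢
    refine Eq.trans (congrArg List.sum ?_) (h1.trans (by simp))
    apply List.map_congr_left
    intro g _
    simp only [Function.comp, map_pow, Polynomial.constantCoeff_apply]
  have hg0 : ∀ g ∈ l, (g.coeff 0).natDegree ≤ 0 := by
    have := natDegree_le_of_realLike realLike_real (l.map (fun f => f.coeff 0)) 0 (by
      intro k hk
      rw [hbot]
      have e1 : k ≠ 0 := by omega
      simp [Polynomial.coeff_C, e1])
    intro g hg
    exact this _ (List.mem_map.2 ⟨g, hg, rfl⟩)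
  -- the middle coefficient
  have hval : ((Polynomial.C (Polynomial.C c * Polynomial.X ^ 2) * Polynomial.X ^ 4 +
      Polynomial.C (Polynomial.C c * (Polynomial.X ^ 4 - 3 * Polynomial.X ^ 2)) *
        Polynomial.X ^ 2 + Polynomial.C (Polynomial.C c) :
          Polynomial (Polynomial ℝ)).coeff 2) =
      Polynomial.C c * (Polynomial.X ^ 4 - 3 * Polynomial.X ^ 2) := by
    rw [coeffs]; simp
  have hlin : ∀ l' : List (Polynomial (Polynomial ℝ)), (∀ g ∈ l', g ∈ l) →
      0 ≤ (Polynomial.coeff ((l'.map (fun g => g ^ 2)).sum) 2).eval 1 +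
        (Polynomial.coeff ((l'.map (fun g => g ^ 2)).sum) 2).eval (-1) := by
    intro l'
    induction l' with
    | nil => intro _; simp
    | cons g l' ih =>
      intro hsub
      have ih' := ih (fun k hk => hsub k (by simp [hk]))
      have hg := hsub g (by simp)
      have e1 : (g ^ 2).coeff 2 = (g.coeff 1) ^ 2 + 2 * g.coeff 0 * g.coeff 2 := by
        rw [sq, Polynomial.coeff_mul]
        simp [Finset.Nat.antidiagonal_succ]
        ring
      have e2 : (g.coeff 0).eval (-1) = (g.coeff 0).eval 1 := by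
        rw [Polynomial.eq_C_of_natDegree_le_zero (hg0 g hg)]; simp
      have e3 : (g.coeff 2).eval (-1) = -(g.coeff 2).eval 1 := by
        have h1 := Polynomial.eq_X_add_C_of_natDegree_le_one (hg2 g hg)
        have h2 := hg20 g hg
        rw [h1] at h2 ⊢
        simp at h2 ⊢
        rw [h2]; ring
      simp only [List.map_cons, List.sum_cons, Polynomial.coeff_add, Polynomial.eval_add, e1]
      simp only [Polynomial.eval_mul, Polynomial.eval_pow, e2, e3, Polynomial.eval_ofNat]
      nlinarith [ih', sq_nonneg ((g.coeff 1).eval 1), sq_nonneg ((g.coeff 1).eval (-1))]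
  have hfin := hlin l (fun _ h => h)
  rw [hl, hval] at hfin
  simp at hfin
  nlinarith

/-- The key step: a quadratic form `q` with positive coefficient at `x3 ^ 2` cannot make
`(P1 + P2) * q` a sum of squares. -/
theorem key (a : Fin 4 → Fin 4 → ℝ) (ha : 0 < a 3 3)
    (h : IsSumSq ((C (1 / 2 : ℝ) * (P1 (X 0) (X 1) (X 2) (X 3) + P2 (X 0) (X 1) (X 2) (X 3))) *
      ∑ i, ∑ j, C (a i j) * (X i * X j) : MvPolynomial (Fin 4) ℝ)) : False := by
  -- the map to `ℝ[x][y][T]`, `x0 ↦ x`, `x1 ↦ y`, `x2 ↦ 1`, `x3 ↦ T`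
  let x : Polynomial (Polynomial (Polynomial ℝ)) := Polynomial.C (Polynomial.C Polynomial.X)
  let y : Polynomial (Polynomial (Polynomial ℝ)) := Polynomial.C Polynomial.X
  let T : Polynomial (Polynomial (Polynomial ℝ)) := Polynomial.X
  let φ : MvPolynomial (Fin 4) ℝ →+* Polynomial (Polynomial (Polynomial ℝ)) :=
    eval₂Hom ((Polynomial.C.comp Polynomial.C).comp Polynomial.C) ![x, y, 1, T]
  have hφ := isSumSq_map (S := Polynomial (Polynomial (Polynomial ℝ))) φ h
  have hC : ∀ r : ℝ, φ (C r) = Polynomial.C (Polynomial.C (Polynomial.C r)) := by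
    intro r; simp [φ]
  have h0 : φ (X 0) = x := by simp [φ]
  have h1 : φ (X 1) = y := by simp [φ]
  have h2 : φ (X 2) = 1 := by simp [φ]
  have h3 : φ (X 3) = T := by simp [φ]
  have hmot : ∀ u v w : MvPolynomial (Fin 4) ℝ, φ (mot u v w) = mot (φ u) (φ v) (φ w) := by
    intro u v w; unfold mot
    simp only [map_add, map_sub, map_mul, map_pow, map_ofNat]
  have hP : φ (P1 (X 0) (X 1) (X 2) (X 3) + P2 (X 0) (X 1) (X 2) (X 3)) =
      P1 x y 1 T + P2 x y 1 T := by
    unfold P1 P2
    simp only [map_add, map_mul, map_pow, hmot, h0, h1, h2, h3]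
  -- the coefficients
  let x' : Polynomial (Polynomial ℝ) := Polynomial.C Polynomial.X
  let y' : Polynomial (Polynomial ℝ) := Polynomial.X
  let A : Polynomial (Polynomial (Polynomial ℝ)) :=
    Polynomial.C (x' ^ 4 * y' ^ 2 + x' ^ 2 * y' ^ 4 + 1 - 3 * x' ^ 2 * y' ^ 2) * Polynomial.X ^ 8 +
    Polynomial.X ^ 6 + Polynomial.C (x' ^ 8 + y' ^ 8) * Polynomial.X ^ 4 +
    Polynomial.C (-3 * x' ^ 2 * y' ^ 2 + x' ^ 8 * (1 - 3 * y' ^ 2) + y' ^ 8 * (1 - 3 * x' ^ 2)) *
      Polynomial.X ^ 2 +
    Polynomial.C (x' ^ 4 * y' ^ 2 + x' ^ 2 * y' ^ 4 + x' ^ 8 * y' ^ 6 + y' ^ 8 * x' ^ 6)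
  have hA : P1 x y 1 T + P2 x y 1 T = A := by
    simp only [A, P1, P2, mot, x, y, T, x', y', map_add, map_mul, map_pow, map_sub, map_neg,
      map_one, map_ofNat]
    ring
  let D1 : Polynomial (Polynomial ℝ) :=
    Polynomial.C (Polynomial.C (a 0 3 + a 3 0)) * x' + Polynomial.C (Polynomial.C (a 1 3 + a 3 1)) * y'
      + Polynomial.C (Polynomial.C (a 2 3 + a 3 2))
  let D0 : Polynomial (Polynomial ℝ) :=
    Polynomial.C (Polynomial.C (a 0 0)) * x' ^ 2 +
    Polynomial.C (Polynomial.C (a 0 1 + a 1 0)) * (x' * y') +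
    Polynomial.C (Polynomial.C (a 0 2 + a 2 0)) * x' +
    Polynomial.C (Polynomial.C (a 1 1)) * y' ^ 2 +
    Polynomial.C (Polynomial.C (a 1 2 + a 2 1)) * y' +
    Polynomial.C (Polynomial.C (a 2 2))
  let Q : Polynomial (Polynomial (Polynomial ℝ)) :=
    Polynomial.C (Polynomial.C (Polynomial.C (a 3 3))) * Polynomial.X ^ 2 +
      Polynomial.C D1 * Polynomial.X + Polynomial.C D0
  have hQ : φ (∑ i, ∑ j, C (a i j) * (X i * X j)) = Q := by
    simp only [Fin.sum_univ_four, map_add, map_mul, hC, h0, h1, h2, h3]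
    simp only [Q, D1, D0, x, y, T, x', y', map_add, map_mul, map_pow]
    ring
  rw [map_mul, map_mul, hC, hP, hA, hQ] at hφ
  obtain ⟨l3, hl3⟩ := exists_list (R := Polynomial (Polynomial (Polynomial ℝ))) hφ
  have hR1 : RealLike (Polynomial ℝ) := realLike_real.polynomial
  have hR2 : RealLike (Polynomial (Polynomial ℝ)) := hR1.polynomial
  have hAdeg : A.natDegree ≤ 8 := by
    simp only [A]; compute_degree
  have hQdeg : Q.natDegree ≤ 2 := by
    simp only [Q]; compute_degree
  have hA8 : A.coeff 8 = x' ^ 4 * y' ^ 2 + x' ^ 2 * y' ^ 4 + 1 - 3 * x' ^ 2 * y' ^ 2 := by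
    simp only [A, Polynomial.coeff_add, Polynomial.coeff_C_mul, Polynomial.coeff_X_pow,
      Polynomial.coeff_C]
    norm_num
  have hQ2 : Q.coeff 2 = Polynomial.C (Polynomial.C (a 3 3)) := by
    simp only [Q, Polynomial.coeff_add, Polynomial.coeff_C_mul, Polynomial.coeff_X_pow,
      Polynomial.coeff_C, Polynomial.coeff_X]
    norm_num
  have hdegS : (Polynomial.C (Polynomial.C (Polynomial.C (1 / 2 : ℝ))) * A * Q).natDegree ≤ 10 := by
    refine (Polynomial.natDegree_mul_le).trans ?_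
    have := Polynomial.natDegree_C_mul_le (Polynomial.C (Polynomial.C (1 / 2 : ℝ))) A
    omega
  have hdeg3 : ∀ f ∈ l3, f.natDegree ≤ 5 := by
    apply natDegree_le_of_realLike hR2
    intro k hk
    rw [← hl3]
    exact Polynomial.coeff_eq_zero_of_natDegree_lt (by omega)
  have htop := coeff_sq_sum l3 5 hdeg3
  rw [← hl3] at htop
  have hcoef : (Polynomial.C (Polynomial.C (Polynomial.C (1 / 2 : ℝ))) * A * Q).coeff (2 * 5) =
      Polynomial.C (Polynomial.C (1 / 2 : ℝ)) * A.coeff 8 * Q.coeff 2 := by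
    have e1 : (Polynomial.C (Polynomial.C (Polynomial.C (1 / 2 : ℝ))) * A).natDegree ≤ 8 :=
      (Polynomial.natDegree_C_mul_le _ _).trans hAdeg
    have e2 := Polynomial.coeff_mul_add_eq_of_natDegree_le e1 hQdeg
    rw [Polynomial.coeff_C_mul] at e2
    exact e2
  rw [hcoef, hA8, hQ2] at htop
  refine not_motzkin (a 3 3 / 2) (by linarith) (l3.map (fun f => f.coeff 5)) ?_
  rw [← htop]
  have e4 : Polynomial.C (Polynomial.C (a 3 3 / 2)) =
      Polynomial.C (Polynomial.C (1 / 2 : ℝ)) * Polynomial.C (Polynomial.C (a 3 3)) := by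
    rw [← map_mul, ← map_mul]; congr 2; ring
  simp only [x', y', map_mul, map_pow, map_sub, map_ofNat, e4]
  ring

theorem mot_swap {R : Type*} [CommRing R] (a b c : R) : mot a b c = mot b a c := by
  unfold mot; ring

/-- The same for all four squares. -/
theorem key' (a : Fin 4 → Fin 4 → ℝ)
    (h : IsSumSq ((C (1 / 2 : ℝ) * (P1 (X 0) (X 1) (X 2) (X 3) + P2 (X 0) (X 1) (X 2) (X 3))) *
      ∑ i, ∑ j, C (a i j) * (X i * X j) : MvPolynomial (Fin 4) ℝ)) (i : Fin 4) :
    a i i ≤ 0 := by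
  have main : ∀ e : Equiv.Perm (Fin 4),
      (P1 (X (e 0)) (X (e 1)) (X (e 2)) (X (e 3)) + P2 (X (e 0)) (X (e 1)) (X (e 2)) (X (e 3)) :
        MvPolynomial (Fin 4) ℝ) = P1 (X 0) (X 1) (X 2) (X 3) + P2 (X 0) (X 1) (X 2) (X 3) →
      a (e.symm 3) (e.symm 3) ≤ 0 := by
    intro e he
    by_contra hcon
    push Not at hcon
    refine key (fun i j => a (e.symm i) (e.symm j)) hcon ?_
    let ρ : MvPolynomial (Fin 4) ℝ →+* MvPolynomial (Fin 4) ℝ := (rename e).toRingHom
    have h1 := isSumSq_map (S := MvPolynomial (Fin 4) ℝ) ρ h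
    have hρX : ∀ i, ρ (X i) = X (e i) := fun i => rename_X _ _
    have hρC : ∀ r, ρ (C r) = C r := fun r => rename_C _ _
    have hmot : ∀ u v w : MvPolynomial (Fin 4) ℝ, ρ (mot u v w) = mot (ρ u) (ρ v) (ρ w) := by
      intro u v w; unfold mot
      rw [map_sub, map_add, map_add, map_mul, map_mul, map_mul, map_mul, map_mul, map_pow, map_pow,
        map_pow, map_pow, map_pow, map_pow, map_ofNat]
    have hρP : ρ (P1 (X 0) (X 1) (X 2) (X 3) + P2 (X 0) (X 1) (X 2) (X 3)) =
        P1 (X 0) (X 1) (X 2) (X 3) + P2 (X 0) (X 1) (X 2) (X 3) := by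
      refine Eq.trans ?_ he
      unfold P1 P2
      rw [map_add, map_add, map_add, map_mul, map_mul, map_mul, map_mul, hmot, hmot, hmot, hmot,
        map_pow, map_pow, map_pow, map_pow, hρX, hρX, hρX, hρX]
    have h2 : ρ
        ((C (1 / 2 : ℝ) * (P1 (X 0) (X 1) (X 2) (X 3) + P2 (X 0) (X 1) (X 2) (X 3))) *
      ∑ i, ∑ j, C (a i j) * (X i * X j) : MvPolynomial (Fin 4) ℝ) =
      (C (1 / 2 : ℝ) * (P1 (X 0) (X 1) (X 2) (X 3) + P2 (X 0) (X 1) (X 2) (X 3))) *
      ∑ i, ∑ j, C (a (e.symm i) (e.symm j)) * (X i * X j) := by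
      rw [map_mul, map_mul, hρP, hρC]
      congr 1
      rw [map_sum]
      refine Eq.trans ?_ (Equiv.sum_comp e (fun i => ∑ j, C (a (e.symm i) (e.symm j)) *
        ((X i : MvPolynomial (Fin 4) ℝ) * X j)))
      refine Finset.sum_congr rfl fun i _ => ?_
      rw [map_sum]
      refine Eq.trans ?_ (Equiv.sum_comp e (fun j => C (a (e.symm (e i)) (e.symm j)) *
        ((X (e i) : MvPolynomial (Fin 4) ℝ) * X j)))
      refine Finset.sum_congr rfl fun j _ => ?_
      rw [map_mul, map_mul, hρX, hρX, hρC, Equiv.symm_apply_apply, Equiv.symm_apply_apply]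
    rw [h2] at h1
    exact h1
  have aux : ∀ (e : Equiv.Perm (Fin 4)) (i0 i1 i2 i3 k : Fin 4), e 0 = i0 → e 1 = i1 → e 2 = i2 →
      e 3 = i3 → e.symm 3 = k →
      (P1 (X i0) (X i1) (X i2) (X i3) + P2 (X i0) (X i1) (X i2) (X i3) :
        MvPolynomial (Fin 4) ℝ) = P1 (X 0) (X 1) (X 2) (X 3) + P2 (X 0) (X 1) (X 2) (X 3) →
      a k k ≤ 0 := by
    intro e i0 i1 i2 i3 k h0 h1 h2 h3 hk hP
    subst h0 h1 h2 h3 hk
    exact main e hP
  fin_cases i
  · exact aux (Equiv.swap 0 3 * Equiv.swap 1 2) 3 2 1 0 0 (by decide) (by decide) (by decide)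
      (by decide) (by decide) (by unfold P1 P2 mot; ring)
  · exact aux (Equiv.swap 1 3 * Equiv.swap 0 2) 2 3 0 1 1 (by decide) (by decide) (by decide)
      (by decide) (by decide) (by unfold P1 P2 mot; ring)
  · exact aux (Equiv.swap 2 3) 0 1 3 2 2 (by decide) (by decide) (by decide)
      (by decide) (by decide) (by unfold P1 P2 mot; ring)
  · exact main 1 rfl

/-! ### Quadratic forms -/

theorem exists_quad (q : MvPolynomial (Fin 4) ℝ) (hq : q.IsHomogeneous 2) :
    ∃ a : Fin 4 → Fin 4 → ℝ, q = ∑ i, ∑ j, C (a i j) * (X i * X j) := by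
  have hmono : ∀ (d : Fin 4 →₀ ℕ) (c : ℝ), d.degree = 2 →
      ∃ a : Fin 4 → Fin 4 → ℝ, monomial d c = ∑ i, ∑ j, C (a i j) * (X i * X j) := by
    intro d c hd
    have h1 : ∃ i, d i ≠ 0 := by
      by_contra hcon
      push Not at hcon
      have : d = 0 := by ext i; simpa using hcon i
      rw [this] at hd
      simp at hd
    obtain ⟨i, hi⟩ := h1
    obtain ⟨d', hd'⟩ : ∃ d' : Fin 4 →₀ ℕ, d = Finsupp.single i 1 + d' := by
      refine ⟨d - Finsupp.single i 1, ?_⟩
      rw [add_tsub_cancel_of_le]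
      rw [Finsupp.single_le_iff]
      omega
    have hd'1 : d'.degree = 1 := by
      rw [hd', map_add, Finsupp.degree_single] at hd
      omega
    have h2 : ∃ j, d' j ≠ 0 := by
      by_contra hcon
      push Not at hcon
      have : d' = 0 := by ext i; simpa using hcon i
      rw [this] at hd'1
      simp at hd'1
    obtain ⟨j, hj⟩ := h2
    obtain ⟨d'', hd''⟩ : ∃ d'' : Fin 4 →₀ ℕ, d' = Finsupp.single j 1 + d'' := by
      refine ⟨d' - Finsupp.single j 1, ?_⟩
      rw [add_tsub_cancel_of_le]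
      rw [Finsupp.single_le_iff]
      omega
    have hd''1 : d''.degree = 0 := by
      rw [hd'', map_add, Finsupp.degree_single] at hd'1
      omega
    have hd''0 : d'' = 0 := by
      rwa [Finsupp.degree_eq_zero_iff] at hd''1
    refine ⟨fun k l => if k = i then (if l = j then c else 0) else 0, ?_⟩
    have : ∀ k l : Fin 4, (C (if k = i then (if l = j then c else 0) else 0) * (X k * X l) :
        MvPolynomial (Fin 4) ℝ) = if k = i then (if l = j then C c * (X k * X l) else 0) else 0 := by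
      intro k l
      split_ifs <;> simp
    simp only [this]
    simp only [Finset.sum_ite_eq', Finset.mem_univ, if_true, Finset.sum_ite_irrel,
      Finset.sum_const_zero]
    rw [hd', hd'', hd''0, add_zero, X, X, monomial_mul, C_mul_monomial]
    simp
  have hsum : ∀ S : Finset (Fin 4 →₀ ℕ), (∀ d ∈ S, d.degree = 2) →
      ∃ a : Fin 4 → Fin 4 → ℝ, ∑ d ∈ S, monomial d (coeff d q) =
        ∑ i, ∑ j, C (a i j) * (X i * X j) := by
    intro S
    induction S using Finset.induction_on with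
    | empty => intro _; exact ⟨fun _ _ => 0, by simp⟩
    | insert d S hdS ih =>
      intro hS
      obtain ⟨a, ha⟩ := ih (fun e he => hS e (Finset.mem_insert_of_mem he))
      obtain ⟨b, hb⟩ := hmono d (coeff d q) (hS d (Finset.mem_insert_self _ _))
      refine ⟨fun i j => b i j + a i j, ?_⟩
      rw [Finset.sum_insert hdS, ha, hb]
      simp only [map_add, add_mul, Finset.sum_add_distrib]
  obtain ⟨a, ha⟩ := hsum q.support (by
    intro d hd
    have := hq (mem_support_iff.1 hd)
    rw [Finsupp.degree_eq_weight_one (R := ℕ)]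
    exact this)
  exact ⟨a, by rw [← ha]; exact (support_sum_monomial_coeff q).symm⟩

theorem eval_nonneg {q : MvPolynomial (Fin 4) ℝ} (h : IsSumSq q) (v : Fin 4 → ℝ) :
    0 ≤ eval v q := by
  induction h with
  | zero => exact (map_zero (eval v)).symm.le
  | sq_add a hs ih => rw [map_add, map_mul]; nlinarith [mul_self_nonneg (eval v a)]

theorem homog_mot {a b c : MvPolynomial (Fin 4) ℝ} (ha : a.IsHomogeneous 1)
    (hb : b.IsHomogeneous 1) (hc : c.IsHomogeneous 1) : (mot a b c).IsHomogeneous 6 := by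
  have h3 : (3 * a ^ 2 * b ^ 2 * c ^ 2 : MvPolynomial (Fin 4) ℝ).IsHomogeneous 6 := by
    have h0 : (3 : MvPolynomial (Fin 4) ℝ) = C 3 := (map_ofNat C 3).symm
    rw [h0]
    exact (((isHomogeneous_C _ _).mul (ha.pow 2)).mul (hb.pow 2)).mul (hc.pow 2)
  exact ((((ha.pow 4).mul (hb.pow 2)).add ((ha.pow 2).mul (hb.pow 4))).add (hc.pow 6)).sub h3

theorem homog_P1 {a b c d : MvPolynomial (Fin 4) ℝ} (ha : a.IsHomogeneous 1)
    (hb : b.IsHomogeneous 1) (hc : c.IsHomogeneous 1) (hd : d.IsHomogeneous 1) :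
    (P1 a b c d).IsHomogeneous 14 :=
  ((hd.pow 8).mul (homog_mot ha hb hc)).add ((hc.pow 8).mul (homog_mot ha hb hd))

theorem homog_sq_add {a b : MvPolynomial (Fin 4) ℝ} (ha : a.IsHomogeneous 1)
    (hb : b.IsHomogeneous 1) : (a ^ 2 + b ^ 2).IsHomogeneous 2 :=
  (ha.pow 2).add (hb.pow 2)

theorem sq_add_ne_zero (i j : Fin 4) : (X i ^ 2 + X j ^ 2 : MvPolynomial (Fin 4) ℝ) ≠ 0 := by
  intro h
  have := congrArg (eval (fun _ => (1 : ℝ))) h
  simp at this

/-- The Artin cone of level `1` for forms of degree `14` in four variables is not convex. -/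
theorem result : ¬ Convex ℝ (artinCone 4 7 1) := by
  intro hconv
  have hX : ∀ i : Fin 4, (X i : MvPolynomial (Fin 4) ℝ).IsHomogeneous 1 := fun i =>
    isHomogeneous_X _ i
  have h1 : P1 (X 0) (X 1) (X 2) (X 3) ∈ artinCone 4 7 1 :=
    ⟨homog_P1 (hX 0) (hX 1) (hX 2) (hX 3), X 0 ^ 2 + X 1 ^ 2, homog_sq_add (hX 0) (hX 1),
      sq_add_ne_zero 0 1, (isSumSq_sq _).add (isSumSq_sq _), isSumSq_P1 _ _ _ _⟩
  have h2 : P2 (X 0) (X 1) (X 2) (X 3) ∈ artinCone 4 7 1 := by
    rw [P2_eq]
    exact ⟨homog_P1 (hX 2) (hX 3) (hX 0) (hX 1), X 2 ^ 2 + X 3 ^ 2, homog_sq_add (hX 2) (hX 3),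
      sq_add_ne_zero 2 3, (isSumSq_sq _).add (isSumSq_sq _), isSumSq_P1 _ _ _ _⟩
  obtain ⟨-, q, hq, hq0, hqs, hs⟩ := hconv h1 h2 (by norm_num : (0 : ℝ) ≤ 1 / 2)
    (by norm_num : (0 : ℝ) ≤ 1 / 2) (by norm_num)
  obtain ⟨a, rfl⟩ := exists_quad q hq
  rw [← smul_add, smul_eq_C_mul] at hs
  have hneg := key' a hs
  apply hq0
  -- nonnegativity of the quadratic form
  have hval : ∀ v : Fin 4 → ℝ, 0 ≤ ∑ i, ∑ j, a i j * (v i * v j) := by
    intro v
    have := eval_nonneg hqs v
    simpa [map_sum] using this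
  have hdiag : ∀ i, a i i = 0 := by
    intro i
    refine le_antisymm (hneg i) ?_
    have := hval (Pi.single i 1)
    simpa [Pi.single_apply] using this
  have hoff : ∀ i j, i ≠ j → a i j + a j i = 0 := by
    intro i j hij
    have hp := hval (Pi.single i 1 + Pi.single j 1)
    have hm := hval (Pi.single i 1 - Pi.single j 1)
    have d := fun i => hdiag i
    fin_cases i <;> fin_cases j <;> first
      | exact absurd rfl hij
      | (simp [Fin.sum_univ_four, Pi.single_apply, hdiag] at hp hm ⊢; linarith)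
  simp only [Fin.sum_univ_four, hdiag]
  have e01 := hoff 0 1 (by decide)
  have e02 := hoff 0 2 (by decide)
  have e03 := hoff 0 3 (by decide)
  have e12 := hoff 1 2 (by decide)
  have e13 := hoff 1 3 (by decide)
  have e23 := hoff 2 3 (by decide)
  have f01 : a 1 0 = - a 0 1 := by linarith
  have f02 : a 2 0 = - a 0 2 := by linarith
  have f03 : a 3 0 = - a 0 3 := by linarith
  have f12 : a 2 1 = - a 1 2 := by linarith
  have f13 : a 3 1 = - a 1 3 := by linarith
  have f23 : a 3 2 = - a 2 3 := by linarith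
  rw [f01, f02, f03, f12, f13, f23]
  simp only [map_neg, map_zero]
  ring

end Pool.Agent.Results.MP_9eb66c_ag.NotConvex
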